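import Pool.Agent.Helper18.SU.Goals

set_option autoImplicit false

namespace Pool.Agent.Helper20.SU

open Pool.Agent.Helper18.SU

theorem orig_mem {V : Type} [DecidableEq V] {A : V → V → Prop} {s : List Bool} {X : Finset V}
    {x : V} (h : Orig A s X x) : x ∈ X := by
  cases s with
  | nil => exact h
  | cons d s => exact h.1

theorem arc_irrefl {V : Type} {A : V → V → Prop} (hA : Tour A) (d : Bool) (x : V) :
    ¬ Arc A d x x := by
  intro h
  cases d
  · exact hA.1 x x h h
  · exact hA.1 x x h h

theorem arc_or {V : Type} {A : V → V → Prop} (hA : Tour A) (d : Bool) {x y : V} (h : x ≠ y) :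
    Arc A d x y ∨ Arc A d y x := by
  cases d
  · exact (hA.2 x y h).symm
  · exact hA.2 x y h

theorem arc_not {V : Type} {A : V → V → Prop} (d : Bool) {x y : V} (h : Arc A d x y) :
    Arc A (!d) y x := by
  cases d
  · exact h
  · exact h

open Classical in
/-- The vertices reachable from `x`, other than `x`, are reachable from one out-neighbour. -/
theorem best (h1 : REA_stmt) {V : Type} [DecidableEq V] {A : V → V → Prop} (hA : Tour A)
    (d : Bool) (X : Finset V) (x : V) (hx : x ∈ X) (h2 : 2 ≤ (Reach A d X x).card) :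
    ∃ u ∈ (X.erase x).filter (fun v => Arc A d x v),
      (Reach A d X x).card ≤ (Reach A d (X.erase x) u).card + 1 := by
  obtain ⟨_, hrefl, _, _, _, _, h7, _⟩ := h1 V A hA d X
  obtain ⟨_, _, _, _, _, _, _, h8⟩ := h1 V A hA d (X.erase x)
  have hxR := hrefl x hx
  have hne : ((X.erase x).filter (fun v => Arc A d x v)).Nonempty := by
    obtain ⟨y, hy, hyx⟩ := Finset.exists_mem_ne (by omega : 1 < (Reach A d X x).card) x
    obtain ⟨u, hu, hxu, _⟩ := h7 x hx y hy hyx
    exact ⟨u, Finset.mem_filter.2 ⟨hu, hxu⟩⟩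
  obtain ⟨u, hu, hbest⟩ := h8 _ (Finset.filter_subset _ _) hne
  refine ⟨u, hu, ?_⟩
  have hsub : (Reach A d X x).erase x ⊆ Reach A d (X.erase x) u := by
    intro y hy
    obtain ⟨hyx, hyR⟩ := Finset.mem_erase.1 hy
    obtain ⟨v, hv, hxv, hyv⟩ := h7 x hx y hyR hyx
    exact hbest v (Finset.mem_filter.2 ⟨hv, hxv⟩) hyv
  have hc := Finset.card_le_card hsub
  rw [Finset.card_erase_of_mem hxR] at hc
  omega

/-- Adding one new vertex which is dominated by the start. -/
theorem addOne (h1 : REA_stmt) {V : Type} [DecidableEq V] {A : V → V → Prop} (hA : Tour A)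
    (d : Bool) (X Y : Finset V) (hYX : Y ⊆ X) (u x : V) (hu : u ∈ Y) (hx : x ∈ X) (hxY : x ∉ Y)
    (hux : Arc A d u x) :
    (Reach A d Y u).card + 1 ≤ (Reach A d X u).card := by
  obtain ⟨_, hrefl, _, h4, _, h6, _, _⟩ := h1 V A hA d X
  obtain ⟨h1Y, _, _, _, _, _, _, _⟩ := h1 V A hA d Y
  have huX : u ∈ X := hYX hu
  have hxR : x ∈ Reach A d X u := h4 u huX u (hrefl u huX) x hx hux
  have hsub : insert x (Reach A d Y u) ⊆ Reach A d X u := by
    intro z hz
    rcases Finset.mem_insert.1 hz with rfl | hz
    · exact hxR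
    · exact h6 u Y hYX hz
  have hc := Finset.card_le_card hsub
  rw [Finset.card_insert_of_notMem (fun h => hxY (h1Y u h))] at hc
  exact hc

open Classical in
theorem SPA (h1 : REA_stmt) (h2 : SUB_stmt) (h3 : PTL_stmt) : SPA_stmt := by
  intro m hm V _ A hA d s X hlen hcard x hx y hy hxy hR
  have hlen' : s.length + 1 = m := by simpa using hlen
  have hcard' : X.card = s.length + 4 := by
    rw [hcard]; simp
  have hblk : blk d (d :: s) = blk d s + 1 := by simp [blk]
  have hyx : y ≠ x := fun h => arc_irrefl hA d x (h ▸ hxy)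
  obtain ⟨hsX, hrefl, htr, h4, _, h6, h7, h8⟩ := h1 V A hA d X
  have hyR : y ∈ Reach A d X x := h4 x hx x (hrefl x hx) y hy hxy
  have hsub := htr x hx y hy hyR
  rw [Finset.union_eq_left.2 hsub, hblk] at hR
  -- the set `Y`
  have hYc : (X.erase x).card = s.length + 3 := by
    rw [Finset.card_erase_of_mem hx]; omega
  have hyY : y ∈ X.erase x := Finset.mem_erase.2 ⟨hyx, hy⟩
  obtain ⟨u, hu, huc⟩ := best h1 hA d X x hx (by omega)
  by_cases hU : 2 ≤ ((X.erase x).filter (fun v => Arc A d x v)).card
  · -- Case 1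
    left
    obtain ⟨w, hw, hwo⟩ := h2 s.length (hm _ (by omega)) V A hA d s (X.erase x)
      ((X.erase x).filter (fun v => Arc A d x v)) rfl (by omega) (Finset.filter_subset _ _) hU
      (Or.inr ⟨u, hu, by omega⟩)
    obtain ⟨hwY, hxw⟩ := Finset.mem_filter.1 hw
    exact ⟨hx, w, hwY, hxw, hwo⟩
  · -- Case 2
    right
    have hone : ∀ v ∈ X.erase x, Arc A d x v → v = y := by
      intro v hv hxv
      have h' : ((X.erase x).filter (fun v => Arc A d x v)).card ≤ 1 := by omega
      exact Finset.card_le_one.1 h' v (Finset.mem_filter.2 ⟨hv, hxv⟩) y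
        (Finset.mem_filter.2 ⟨hyY, hxy⟩)
    have huy : u = y := hone u (Finset.mem_filter.1 hu).1 (Finset.mem_filter.1 hu).2
    subst huy
    have hdom : ∀ v ∈ (X.erase x).erase u, Arc A d v x := by
      intro v hv
      obtain ⟨hvu, hv'⟩ := Finset.mem_erase.1 hv
      have hvx : v ≠ x := (Finset.mem_erase.1 hv').1
      rcases arc_or hA d hvx with h | h
      · exact h
      · exact absurd (hone v hv' h) hvu
    obtain ⟨z, hz, hzc⟩ := best h1 hA d (X.erase x) u hyY (by omega)
    obtain ⟨hzZ, huz⟩ := Finset.mem_filter.1 hz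
    have hzu : z ≠ u := (Finset.mem_erase.1 hzZ).1
    have hzY : z ∈ X.erase x := (Finset.mem_erase.1 hzZ).2
    have hzx : z ≠ x := (Finset.mem_erase.1 hzY).1
    have hzX : z ∈ X := (Finset.mem_erase.1 hzY).2
    have hzX' : z ∈ X.erase u := Finset.mem_erase.2 ⟨hzu, hzX⟩
    have hxX' : x ∈ X.erase u := Finset.mem_erase.2 ⟨fun h => hyx h.symm, hx⟩
    have hX'c : (X.erase u).card = s.length + 3 := by
      rw [Finset.card_erase_of_mem hy]; omega
    have hZX' : (X.erase x).erase u ⊆ X.erase u := by
      intro v hv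
      obtain ⟨hvu, hv'⟩ := Finset.mem_erase.1 hv
      exact Finset.mem_erase.2 ⟨hvu, (Finset.mem_erase.1 hv').2⟩
    have hxZ : x ∉ (X.erase x).erase u := by
      intro h
      exact (Finset.mem_erase.1 (Finset.mem_erase.1 h).2).1 rfl
    have hzx' : Arc A d z x := hdom z hzZ
    have hzR := addOne h1 hA d (X.erase u) ((X.erase x).erase u) hZX' z x hzZ hxX' hxZ hzx'
    by_cases hUy : 2 ≤ (((X.erase x).erase u).filter (fun v => Arc A d u v)).card
    · -- Case 2a
      obtain ⟨w, hw, hwo⟩ := h2 s.length (hm _ (by omega)) V A hA d s (X.erase u)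
        (((X.erase x).erase u).filter (fun v => Arc A d u v)) rfl (by omega)
        (fun v hv => hZX' (Finset.mem_filter.1 hv).1) hUy (Or.inr ⟨z, hz, by omega⟩)
      obtain ⟨hwZ, huw⟩ := Finset.mem_filter.1 hw
      exact ⟨hy, w, hZX' hwZ, huw, hwo⟩
    · -- Case 2b
      suffices hzo : Orig A (d :: s) (X.erase u) z from ⟨hy, z, hzX', huz, hzo⟩
      have hxX'' : x ∈ (X.erase u).erase z := Finset.mem_erase.2 ⟨fun h => hzx h.symm, hxX'⟩
      refine ⟨hzX', ?_⟩
      cases s with
      | nil => exact ⟨x, hxX'', hzx', hxX''⟩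
      | cons e s' =>
        have hX''c : ((X.erase u).erase z).card = s'.length + 3 := by
          rw [Finset.card_erase_of_mem hzX', hX'c]; simp
        by_cases hed : e = d
        · -- second block longer
          subst hed
          have hblk' : blk e (e :: s') = blk e s' + 1 := by simp [blk]
          rw [hblk'] at hR
          obtain ⟨w, hw, hwc⟩ := best h1 hA e ((X.erase x).erase u) z hzZ (by omega)
          obtain ⟨hwZ', hzw⟩ := Finset.mem_filter.1 hw
          have hwZ : w ∈ (X.erase x).erase u := (Finset.mem_erase.1 hwZ').2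
          have hwz : w ≠ z := (Finset.mem_erase.1 hwZ').1
          have hwx : w ≠ x := fun h => hxZ (h ▸ hwZ)
          have hsub' : ((X.erase x).erase u).erase z ⊆ (X.erase u).erase z :=
            Finset.erase_subset_erase _ hZX'
          have hxZ' : x ∉ ((X.erase x).erase u).erase z := fun h => hxZ (Finset.mem_erase.1 h).2
          have hwR := addOne h1 hA e ((X.erase u).erase z) (((X.erase x).erase u).erase z) hsub'
            w x hwZ' hxX'' hxZ' (hdom w hwZ)
          obtain ⟨v, hv, hvo⟩ := h2 s'.length (hm _ (by simp at hlen'; omega)) V A hA e s'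
            ((X.erase u).erase z) {x, w} rfl (by omega)
            (by
              intro v hv
              rcases Finset.mem_insert.1 hv with rfl | hv
              · exact hxX''
              · rw [Finset.mem_singleton.1 hv]; exact hsub' hwZ')
            (by rw [Finset.card_pair (fun h => hwx h.symm)])
            (Or.inr ⟨w, by simp, by omega⟩)
          refine ⟨v, orig_mem hvo, ?_, hvo⟩
          rcases Finset.mem_insert.1 hv with rfl | hv
          · exact hzx'
          · rw [Finset.mem_singleton.1 hv]; exact hzw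
        · have he : e = !d := by
            cases e <;> cases d <;> simp at hed ⊢
          subst he
          have hZ'c : (((X.erase u).erase z).erase x).card = s'.length + 2 := by
            rw [Finset.card_erase_of_mem hxX'', hX''c]; rfl
          obtain ⟨v, hvo⟩ := h3 m hm V A hA s' (((X.erase u).erase z).erase x)
            (by simp at hlen'; omega) (by omega)
          have hv := orig_mem hvo
          refine ⟨x, hxX'', hzx', hxX'', v, hv, ?_, hvo⟩
          apply arc_not
          apply hdom
          simp only [Finset.mem_erase] at hv ⊢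
          exact ⟨hv.2.2.1, hv.1, hv.2.2.2⟩

end Pool.Agent.Helper20.SU
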